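import Mathlib

set_option autoImplicit false

namespace Pool.Agent.Helper557.PadicCore

/-- Indices `(a, b, s)` with `a + b < d`. -/
def Idx (d : ℕ) : Type := {q : ℕ × ℕ × Fin 2 // q.1 + q.2.1 < d}

instance instDecEqIdx (d : ℕ) : DecidableEq (Idx d) :=
  inferInstanceAs (DecidableEq {q : ℕ × ℕ × Fin 2 // q.1 + q.2.1 < d})

instance instFintypeIdx (d : ℕ) : Fintype (Idx d) :=
  Fintype.subtype ((Finset.range d ×ˢ (Finset.range d ×ˢ Finset.univ)).filter
    (fun q => q.1 + q.2.1 < d)) (by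
      intro q
      simp only [Finset.mem_filter, Finset.mem_product, Finset.mem_range, Finset.mem_univ,
        and_true]
      omega)

section Core

variable {R M : Type} [CommRing R] [AddCommGroup M] [Module R M]

/-- The vector `A^a B^b v_s`. -/
def ev (A B : Module.End R M) (v : Fin 2 → M) (a b : ℕ) (s : Fin 2) : M :=
  (A ^ a * B ^ b) (v s)

theorem ev_A (A B : Module.End R M) (v : Fin 2 → M) (a b : ℕ) (s : Fin 2) :
    A (ev A B v a b s) = ev A B v (a + 1) b s := by
  unfold ev
  rw [pow_succ' A a, mul_assoc]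
  rfl

theorem ev_B (A B : Module.End R M) (hAB : Commute A B) (v : Fin 2 → M) (a b : ℕ) (s : Fin 2) :
    B (ev A B v a b s) = ev A B v a (b + 1) s := by
  unfold ev
  have h : A ^ a * B ^ (b + 1) = B * (A ^ a * B ^ b) := by
    rw [pow_succ', ← mul_assoc, ← mul_assoc, (hAB.pow_left a).eq]
  rw [h]
  rfl

variable {d : ℕ} (bs : Module.Basis (Idx d) R M)

/-- The coordinate functional, zero outside the index range. -/
noncomputable def cf (a b : ℕ) (s : Fin 2) : M →ₗ[R] R :=
  if h : a + b < d then bs.coord ⟨(a, b, s), h⟩ else 0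

theorem dvd_lin {A B : Module.End R M} {v : Fin 2 → M}
    (hb : ∀ q : Idx d, bs q = ev A B v q.1.1 q.1.2.1 q.1.2.2)
    (L : M →ₗ[R] R) (m : M) (x : R)
    (h : ∀ a b s, a + b < d → x ∣ cf bs a b s m * L (ev A B v a b s)) : x ∣ L m := by
  have h1 : L m = ∑ q : Idx d, bs.repr m q * L (bs q) := by
    conv_lhs => rw [← bs.sum_repr m]
    rw [map_sum]
    refine Finset.sum_congr rfl ?_
    intro q _
    rw [map_smul, smul_eq_mul]
  rw [h1]
  refine Finset.dvd_sum ?_
  intro q _
  have h2 := h q.1.1 q.1.2.1 q.1.2.2 q.2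
  rw [hb q]
  unfold cf at h2
  rw [dif_pos q.2] at h2
  exact h2

theorem cf_ev {A B : Module.End R M} {v : Fin 2 → M}
    (hb : ∀ q : Idx d, bs q = ev A B v q.1.1 q.1.2.1 q.1.2.2)
    (a b : ℕ) (s : Fin 2) (a' b' : ℕ) (s' : Fin 2) (h' : a' + b' < d) :
    cf bs a b s (ev A B v a' b' s') = if (a = a' ∧ b = b' ∧ s = s') then 1 else 0 := by
  have h1 := hb ⟨(a', b', s'), h'⟩
  simp only at h1
  rw [← h1]
  unfold cf
  split_ifs with h2 h3 h3
  · obtain ⟨rfl, rfl, rfl⟩ := h3
    simp
  · rw [Module.Basis.coord_apply, Module.Basis.repr_self, Finsupp.single_apply, if_neg]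
    intro h4
    apply h3
    have h5 := congrArg Subtype.val h4
    simp only [Prod.mk.injEq] at h5
    exact ⟨h5.1.symm, h5.2.1.symm, h5.2.2.symm⟩
  · obtain ⟨rfl, rfl, rfl⟩ := h3
    exact absurd h' h2
  · simp

/-- difference lemma for `A`, coordinate `(a+1, b)` -/
theorem diffA {A B : Module.End R M} {v : Fin 2 → M}
    (hb : ∀ q : Idx d, bs q = ev A B v q.1.1 q.1.2.1 q.1.2.2)
    (x y : R) (m : M) (hm : ∀ a b s, a + b + 1 = d → x ∣ cf bs a b s m)
    (a b : ℕ) (s : Fin 2) (hab : a + 1 + b < d)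
    (hD : ∀ l i s', l + i = d → y ∣ cf bs (a + 1) b s (ev A B v l i s')) :
    x * y ∣ cf bs (a + 1) b s (A m) - cf bs a b s m := by
  have key : x * y ∣ ((cf bs (a + 1) b s) ∘ₗ A - cf bs a b s) m := by
    refine dvd_lin bs hb _ m _ ?_
    intro a' b' s' h'
    rw [LinearMap.sub_apply, LinearMap.comp_apply, ev_A]
    by_cases htop : a' + b' + 1 = d
    · have h1 : cf bs a b s (ev A B v a' b' s') = 0 := by
        rw [cf_ev bs hb _ _ _ _ _ _ h', if_neg]
        rintro ⟨rfl, rfl, _⟩
        omega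
      rw [h1, sub_zero]
      exact mul_dvd_mul (hm a' b' s' htop) (hD (a' + 1) b' s' (by omega))
    · have h1 : cf bs (a + 1) b s (ev A B v (a' + 1) b' s') - cf bs a b s (ev A B v a' b' s') = 0 := by
        rw [cf_ev bs hb _ _ _ _ _ _ h', cf_ev bs hb _ _ _ _ _ _ (by omega)]
        simp
      rw [h1, mul_zero]
      exact dvd_zero _
  simpa using key

/-- difference lemma for `A`, coordinate `(0, b)` -/
theorem diffA0 {A B : Module.End R M} {v : Fin 2 → M}
    (hb : ∀ q : Idx d, bs q = ev A B v q.1.1 q.1.2.1 q.1.2.2)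
    (x y : R) (m : M) (hm : ∀ a b s, a + b + 1 = d → x ∣ cf bs a b s m)
    (b : ℕ) (s : Fin 2)
    (hD : ∀ l i s', l + i = d → y ∣ cf bs 0 b s (ev A B v l i s')) :
    x * y ∣ cf bs 0 b s (A m) := by
  have key : x * y ∣ ((cf bs 0 b s) ∘ₗ A) m := by
    refine dvd_lin bs hb _ m _ ?_
    intro a' b' s' h'
    rw [LinearMap.comp_apply, ev_A]
    by_cases htop : a' + b' + 1 = d
    · exact mul_dvd_mul (hm a' b' s' htop) (hD (a' + 1) b' s' (by omega))
    · have h1 : cf bs 0 b s (ev A B v (a' + 1) b' s') = 0 := by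
        rw [cf_ev bs hb _ _ _ _ _ _ (by omega)]
        simp
      rw [h1, mul_zero]
      exact dvd_zero _
  simpa using key

/-- difference lemma for `B`, coordinate `(a, b+1)` -/
theorem diffB {A B : Module.End R M} (hAB : Commute A B) {v : Fin 2 → M}
    (hb : ∀ q : Idx d, bs q = ev A B v q.1.1 q.1.2.1 q.1.2.2)
    (x y : R) (m : M) (hm : ∀ a b s, a + b + 1 = d → x ∣ cf bs a b s m)
    (a b : ℕ) (s : Fin 2) (hab : a + (b + 1) < d)
    (hD : ∀ l i s', l + i = d → y ∣ cf bs a (b + 1) s (ev A B v l i s')) :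
    x * y ∣ cf bs a (b + 1) s (B m) - cf bs a b s m := by
  have key : x * y ∣ ((cf bs a (b + 1) s) ∘ₗ B - cf bs a b s) m := by
    refine dvd_lin bs hb _ m _ ?_
    intro a' b' s' h'
    rw [LinearMap.sub_apply, LinearMap.comp_apply, ev_B _ _ hAB]
    by_cases htop : a' + b' + 1 = d
    · have h1 : cf bs a b s (ev A B v a' b' s') = 0 := by
        rw [cf_ev bs hb _ _ _ _ _ _ h', if_neg]
        rintro ⟨rfl, rfl, _⟩
        omega
      rw [h1, sub_zero]
      exact mul_dvd_mul (hm a' b' s' htop) (hD a' (b' + 1) s' (by omega))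
    · have h1 : cf bs a (b + 1) s (ev A B v a' (b' + 1) s') - cf bs a b s (ev A B v a' b' s') = 0 := by
        rw [cf_ev bs hb _ _ _ _ _ _ h', cf_ev bs hb _ _ _ _ _ _ (by omega)]
        simp
      rw [h1, mul_zero]
      exact dvd_zero _
  simpa using key

/-- difference lemma for `B`, coordinate `(a, 0)` -/
theorem diffB0 {A B : Module.End R M} (hAB : Commute A B) {v : Fin 2 → M}
    (hb : ∀ q : Idx d, bs q = ev A B v q.1.1 q.1.2.1 q.1.2.2)
    (x y : R) (m : M) (hm : ∀ a b s, a + b + 1 = d → x ∣ cf bs a b s m)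
    (a : ℕ) (s : Fin 2)
    (hD : ∀ l i s', l + i = d → y ∣ cf bs a 0 s (ev A B v l i s')) :
    x * y ∣ cf bs a 0 s (B m) := by
  have key : x * y ∣ ((cf bs a 0 s) ∘ₗ B) m := by
    refine dvd_lin bs hb _ m _ ?_
    intro a' b' s' h'
    rw [LinearMap.comp_apply, ev_B _ _ hAB]
    by_cases htop : a' + b' + 1 = d
    · exact mul_dvd_mul (hm a' b' s' htop) (hD a' (b' + 1) s' (by omega))
    · have h1 : cf bs a 0 s (ev A B v a' (b' + 1) s') = 0 := by
        rw [cf_ev bs hb _ _ _ _ _ _ (by omega)]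
        simp
      rw [h1, mul_zero]
      exact dvd_zero _
  simpa using key

/-- Step A: the coordinates in degree `a + b` of a word of length `d` are divisible
by `t ^ (d - (a + b))`. -/
theorem stepA {A B : Module.End R M} (hAB : Commute A B) {v : Fin 2 → M}
    (hb : ∀ q : Idx d, bs q = ev A B v q.1.1 q.1.2.1 q.1.2.2) (t : R)
    (h0 : ∀ l i s, l + i = d → ∃ m, ev A B v l i s = t • m) (k : ℕ) :
    ∀ a b, a + b + (k + 1) = d → ∀ l i s s', l + i = d →
      t ^ (k + 1) ∣ cf bs a b s' (ev A B v l i s) := by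
  induction k with
  | zero =>
    intro a b _ l i s s' hli
    obtain ⟨m, hm⟩ := h0 l i s hli
    rw [hm, map_smul, smul_eq_mul]
    simp
  | succ k ih =>
    have htop : ∀ l i s, l + i = d → ∀ a b s', a + b + 1 = d → t ∣ cf bs a b s' (ev A B v l i s) := by
      intro l i s hli a b s' _
      obtain ⟨m, hm⟩ := h0 l i s hli
      rw [hm, map_smul, smul_eq_mul]
      exact Dvd.intro _ rfl
    have hpow : t * t ^ (k + 1) = t ^ (k + 1 + 1) := by ring
    have claim1 : ∀ a b l i s s', a + b + (k + 1 + 1) = d → l + i = d → i + a + 1 ≤ d →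
        t ^ (k + 1 + 1) ∣ cf bs a b s' (ev A B v l i s) := by
      intro a
      induction a with
      | zero =>
        intro b l i s s' hab hli hia
        obtain ⟨l, rfl⟩ : ∃ l', l = l' + 1 := ⟨l - 1, by omega⟩
        have e1 := diffB bs hAB hb t (t ^ (k + 1)) (ev A B v (l + 1) i s)
          (htop (l + 1) i s hli) 0 b s' (by omega)
          (fun l' i' s'' h' => ih 0 (b + 1) (by omega) l' i' s'' s' h')
        have e2 := diffA0 bs hb t (t ^ (k + 1)) (ev A B v l (i + 1) s)
          (htop l (i + 1) s (by omega)) (b + 1) s'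
          (fun l' i' s'' h' => ih 0 (b + 1) (by omega) l' i' s'' s' h')
        rw [ev_B _ _ hAB, hpow] at e1
        rw [ev_A, hpow] at e2
        exact (dvd_iff_dvd_of_dvd_sub e1).mp e2
      | succ a iha =>
        intro b l i s s' hab hli hia
        obtain ⟨l, rfl⟩ : ∃ l', l = l' + 1 := ⟨l - 1, by omega⟩
        have e1 := diffB bs hAB hb t (t ^ (k + 1)) (ev A B v (l + 1) i s)
          (htop (l + 1) i s hli) (a + 1) b s' (by omega)
          (fun l' i' s'' h' => ih (a + 1) (b + 1) (by omega) l' i' s'' s' h')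
        have e2 := diffA bs hb t (t ^ (k + 1)) (ev A B v l (i + 1) s)
          (htop l (i + 1) s (by omega)) a (b + 1) s' (by omega)
          (fun l' i' s'' h' => ih (a + 1) (b + 1) (by omega) l' i' s'' s' h')
        rw [ev_B _ _ hAB, hpow] at e1
        rw [ev_A, hpow] at e2
        have e3 := iha (b + 1) l (i + 1) s s' (by omega) (by omega) (by omega)
        have e4 := (dvd_iff_dvd_of_dvd_sub e2).mpr e3
        exact (dvd_iff_dvd_of_dvd_sub e1).mp e4
    have claim2 : ∀ b a l i s s', a + b + (k + 1 + 1) = d → l + i = d → b + 1 ≤ i →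
        t ^ (k + 1 + 1) ∣ cf bs a b s' (ev A B v l i s) := by
      intro b
      induction b with
      | zero =>
        intro a l i s s' hab hli hia
        obtain ⟨i, rfl⟩ : ∃ i', i = i' + 1 := ⟨i - 1, by omega⟩
        have e1 := diffB0 bs hAB hb t (t ^ (k + 1)) (ev A B v (l + 1) i s)
          (htop (l + 1) i s (by omega)) (a + 1) s'
          (fun l' i' s'' h' => ih (a + 1) 0 (by omega) l' i' s'' s' h')
        have e2 := diffA bs hb t (t ^ (k + 1)) (ev A B v l (i + 1) s)
          (htop l (i + 1) s (by omega)) a 0 s' (by omega)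
          (fun l' i' s'' h' => ih (a + 1) 0 (by omega) l' i' s'' s' h')
        rw [ev_B _ _ hAB, hpow] at e1
        rw [ev_A, hpow] at e2
        exact (dvd_iff_dvd_of_dvd_sub e2).mp e1
      | succ b ihb =>
        intro a l i s s' hab hli hia
        obtain ⟨i, rfl⟩ : ∃ i', i = i' + 1 := ⟨i - 1, by omega⟩
        have e1 := diffB bs hAB hb t (t ^ (k + 1)) (ev A B v (l + 1) i s)
          (htop (l + 1) i s (by omega)) (a + 1) b s' (by omega)
          (fun l' i' s'' h' => ih (a + 1) (b + 1) (by omega) l' i' s'' s' h')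
        have e2 := diffA bs hb t (t ^ (k + 1)) (ev A B v l (i + 1) s)
          (htop l (i + 1) s (by omega)) a (b + 1) s' (by omega)
          (fun l' i' s'' h' => ih (a + 1) (b + 1) (by omega) l' i' s'' s' h')
        rw [ev_B _ _ hAB, hpow] at e1
        rw [ev_A, hpow] at e2
        have e3 := ihb (a + 1) (l + 1) i s s' (by omega) (by omega) (by omega)
        have e4 := (dvd_iff_dvd_of_dvd_sub e1).mpr e3
        exact (dvd_iff_dvd_of_dvd_sub e2).mp e4
    intro a b hab l i s s' hli
    by_cases hc : i + a + 1 ≤ d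
    · exact claim1 a b l i s s' hab hli hc
    · exact claim2 b a l i s s' hab hli (by omega)

/-- `m` has weight at least `w` when coordinates in degree `a + b` are divisible by
`t ^ (w - (a + b))`. -/
def Wt (t : R) (w : ℕ) (m : M) : Prop :=
  ∀ a b s, a + b < d → t ^ (w - (a + b)) ∣ cf bs a b s m

/-- conclusion of step A in a convenient form -/
theorem stepA' {A B : Module.End R M} (hAB : Commute A B) {v : Fin 2 → M}
    (hb : ∀ q : Idx d, bs q = ev A B v q.1.1 q.1.2.1 q.1.2.2) (t : R)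
    (h0 : ∀ l i s, l + i = d → ∃ m, ev A B v l i s = t • m) :
    ∀ a b s', a + b < d → ∀ l i s, l + i = d →
      t ^ (d - (a + b)) ∣ cf bs a b s' (ev A B v l i s) := by
  intro a b s' hab l i s hli
  have h := stepA bs hAB hb t h0 (d - (a + b) - 1) a b (by omega) l i s s' hli
  have e : d - (a + b) - 1 + 1 = d - (a + b) := by omega
  rwa [e] at h

theorem Wt_A {A B : Module.End R M} {v : Fin 2 → M}
    (hb : ∀ q : Idx d, bs q = ev A B v q.1.1 q.1.2.1 q.1.2.2) (t : R)
    (hS : ∀ a b s', a + b < d → ∀ l i s, l + i = d →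
      t ^ (d - (a + b)) ∣ cf bs a b s' (ev A B v l i s)) (w : ℕ) (m : M)
    (hm : Wt bs t w m) : Wt bs t (w + 1) (A m) := by
  intro a b s hab
  have key : t ^ (w + 1 - (a + b)) ∣ ((cf bs a b s) ∘ₗ A) m := by
    refine dvd_lin bs hb _ m _ ?_
    intro a' b' s' h'
    rw [LinearMap.comp_apply, ev_A]
    have h1 := hm a' b' s' h'
    by_cases htop : a' + b' + 1 = d
    · have h2 := hS a b s hab (a' + 1) b' s' (by omega)
      refine dvd_trans (pow_dvd_pow t ?_) (by rw [pow_add]; exact mul_dvd_mul h1 h2)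
      omega
    · rw [cf_ev bs hb _ _ _ _ _ _ (by omega)]
      split_ifs with h3
      · obtain ⟨rfl, rfl, rfl⟩ := h3
        rw [mul_one]
        refine dvd_trans (pow_dvd_pow t ?_) h1
        omega
      · rw [mul_zero]; exact dvd_zero _
  simpa using key

theorem Wt_B {A B : Module.End R M} (hAB : Commute A B) {v : Fin 2 → M}
    (hb : ∀ q : Idx d, bs q = ev A B v q.1.1 q.1.2.1 q.1.2.2) (t : R)
    (hS : ∀ a b s', a + b < d → ∀ l i s, l + i = d →
      t ^ (d - (a + b)) ∣ cf bs a b s' (ev A B v l i s)) (w : ℕ) (m : M)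
    (hm : Wt bs t w m) : Wt bs t (w + 1) (B m) := by
  intro a b s hab
  have key : t ^ (w + 1 - (a + b)) ∣ ((cf bs a b s) ∘ₗ B) m := by
    refine dvd_lin bs hb _ m _ ?_
    intro a' b' s' h'
    rw [LinearMap.comp_apply, ev_B _ _ hAB]
    have h1 := hm a' b' s' h'
    by_cases htop : a' + b' + 1 = d
    · have h2 := hS a b s hab a' (b' + 1) s' (by omega)
      refine dvd_trans (pow_dvd_pow t ?_) (by rw [pow_add]; exact mul_dvd_mul h1 h2)
      omega
    · rw [cf_ev bs hb _ _ _ _ _ _ (by omega)]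
      split_ifs with h3
      · obtain ⟨rfl, rfl, rfl⟩ := h3
        rw [mul_one]
        refine dvd_trans (pow_dvd_pow t ?_) h1
        omega
      · rw [mul_zero]; exact dvd_zero _
  simpa using key

theorem Wt_sub {t : R} {w : ℕ} {m m' : M} (h : Wt bs t w m) (h' : Wt bs t w m') :
    Wt bs t w (m - m') := by
  intro a b s hab
  rw [map_sub]
  exact dvd_sub (h a b s hab) (h' a b s hab)

theorem Wt_smul {t : R} {w : ℕ} {m : M} (h : Wt bs t w m) : Wt bs t (w + 1) (t • m) := by
  intro a b s hab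
  rw [map_smul, smul_eq_mul]
  refine dvd_trans (pow_dvd_pow t ?_)
    (by rw [pow_succ']; exact mul_dvd_mul_left t (h a b s hab))
  omega

/-- `(A - t)^i B^j m` has weight at least `i + j`. -/
theorem Wt_word {A B : Module.End R M} (hAB : Commute A B) {v : Fin 2 → M}
    (hb : ∀ q : Idx d, bs q = ev A B v q.1.1 q.1.2.1 q.1.2.2) (t : R)
    (hS : ∀ a b s', a + b < d → ∀ l i s, l + i = d →
      t ^ (d - (a + b)) ∣ cf bs a b s' (ev A B v l i s)) (i j : ℕ) (m : M) :
    Wt bs t (i + j) (((A - t • 1) ^ i * B ^ j) m) := by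
  induction i with
  | zero =>
    rw [pow_zero, one_mul, zero_add]
    induction j with
    | zero =>
      intro a b s hab
      simp
    | succ j ih =>
      rw [pow_succ']
      exact Wt_B bs hAB hb t hS j _ ih
  | succ i ih =>
    rw [pow_succ', mul_assoc]
    have h1 := Wt_A bs hb t hS _ _ ih
    have h2 := Wt_smul bs ih
    have h3 := Wt_sub bs h1 h2
    have e : i + 1 + j = i + j + 1 := by omega
    rw [e]
    exact h3

/-- Step B, first half: `(A - t)^d v_0` has weight at least `d + 1`. -/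
theorem stepB1 {A B : Module.End R M} (hAB : Commute A B) {v : Fin 2 → M}
    (hb : ∀ q : Idx d, bs q = ev A B v q.1.1 q.1.2.1 q.1.2.2) (t : R)
    (hS : ∀ a b s', a + b < d → ∀ l i s, l + i = d →
      t ^ (d - (a + b)) ∣ cf bs a b s' (ev A B v l i s))
    (h1 : ∀ i j, i + j = d → ∃ m, ((A - t • 1) ^ i * B ^ j) (v 0) = t ^ 2 • m) (k : ℕ) :
    ∀ j, k + j = d → ∀ a b s, a + b < d → j ≤ b →
      t ^ (d + 1 - (a + b)) ∣ cf bs a b s (((A - t • 1) ^ k * B ^ j) (v 0)) := by
  induction k with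
  | zero =>
    intro j hj a b s hab hjb
    omega
  | succ k ih =>
    intro j hj a b s hab hjb
    obtain ⟨m, hm⟩ := h1 (k + 1) j (by omega)
    obtain ⟨m', hm'⟩ := h1 k (j + 1) (by omega)
    by_cases htop : a + b + 1 = d
    · rw [hm, map_smul, smul_eq_mul]
      have e : d + 1 - (a + b) = 2 := by omega
      rw [e]
      exact Dvd.intro _ rfl
    · have htopm : ∀ a b s, a + b + 1 = d →
          t ^ 2 ∣ cf bs a b s (((A - t • 1) ^ (k + 1) * B ^ j) (v 0)) := by
        intro a b s _
        rw [hm, map_smul, smul_eq_mul]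
        exact Dvd.intro _ rfl
      have htopm' : ∀ a b s, a + b + 1 = d →
          t ^ 2 ∣ cf bs a b s (((A - t • 1) ^ k * B ^ (j + 1)) (v 0)) := by
        intro a b s _
        rw [hm', map_smul, smul_eq_mul]
        exact Dvd.intro _ rfl
      have e1 := diffB bs hAB hb (t ^ 2) (t ^ (d - (a + (b + 1)))) _ htopm a b s (by omega)
        (fun l i s' h => hS a (b + 1) s (by omega) l i s' h)
      have hcomm : Commute (A - t • 1) B := by
        refine Commute.sub_left hAB ?_
        exact (Commute.one_left B).smul_left t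
      have e0 : B (((A - t • 1) ^ (k + 1) * B ^ j) (v 0)) =
          A (((A - t • 1) ^ k * B ^ (j + 1)) (v 0)) -
            t • (((A - t • 1) ^ k * B ^ (j + 1)) (v 0)) := by
        have e00 : B * ((A - t • 1) ^ (k + 1) * B ^ j) =
            (A - t • 1) * ((A - t • 1) ^ k * B ^ (j + 1)) := by
          rw [← mul_assoc, ← (hcomm.pow_left (k + 1)).eq, mul_assoc, ← pow_succ', pow_succ', mul_assoc]
        have e01 := congrArg (fun T : Module.End R M => T (v 0)) e00
        simpa using e01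
      have epow : t ^ 2 * t ^ (d - (a + (b + 1))) = t ^ (d + 1 - (a + b)) := by
        rw [← pow_add]
        congr 1
        omega
      rw [e0, epow] at e1
      refine (dvd_iff_dvd_of_dvd_sub e1).mp ?_
      rw [map_sub]
      refine dvd_sub ?_ ?_
      · cases a with
        | zero =>
          have e2 := diffA0 bs hb (t ^ 2) (t ^ (d - (0 + (b + 1)))) _ htopm' (b + 1) s
            (fun l i s' h => hS 0 (b + 1) s (by omega) l i s' h)
          rw [epow] at e2
          exact e2
        | succ a =>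
          have e2 := diffA bs hb (t ^ 2) (t ^ (d - (a + 1 + (b + 1)))) _ htopm' a (b + 1) s (by omega)
            (fun l i s' h => hS (a + 1) (b + 1) s (by omega) l i s' h)
          rw [epow] at e2
          refine (dvd_iff_dvd_of_dvd_sub e2).mpr ?_
          have e3 := ih (j + 1) (by omega) a (b + 1) s (by omega) (by omega)
          have e4 : d + 1 - (a + (b + 1)) = d + 1 - (a + 1 + b) := by omega
          rwa [e4] at e3
      · rw [map_smul, smul_eq_mul]
        have e3 := ih (j + 1) (by omega) a (b + 1) s (by omega) (by omega)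
        have e4 : d + 1 - (a + b) = (d + 1 - (a + (b + 1))) + 1 := by omega
        rw [e4, pow_succ']
        exact mul_dvd_mul_left t e3

/-- Step B, second half. -/
theorem stepB2 {A B : Module.End R M} (hAB : Commute A B) {v : Fin 2 → M}
    (hb : ∀ q : Idx d, bs q = ev A B v q.1.1 q.1.2.1 q.1.2.2) (t : R)
    (hS : ∀ a b s', a + b < d → ∀ l i s, l + i = d →
      t ^ (d - (a + b)) ∣ cf bs a b s' (ev A B v l i s))
    (h2 : ∀ i j, i + 1 + j = d → ∃ m, ev A B v (i + 1) j 1 = t ^ 2 • m) (j : ℕ) :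
    ∀ i, i + 1 + j = d → ∀ a b s, a + b < d → b < j →
      t ^ (d + 1 - (a + b)) ∣ cf bs a b s (ev A B v (i + 1) j 1) := by
  induction j with
  | zero =>
    intro i hi a b s hab hjb
    omega
  | succ j ih =>
    intro i hi a b s hab hjb
    obtain ⟨m, hm⟩ := h2 i (j + 1) (by omega)
    obtain ⟨m', hm'⟩ := h2 (i + 1) j (by omega)
    by_cases htop : a + b + 1 = d
    · rw [hm, map_smul, smul_eq_mul]
      have e : d + 1 - (a + b) = 2 := by omega
      rw [e]
      exact Dvd.intro _ rfl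
    · have htopm : ∀ a b s, a + b + 1 = d →
          t ^ 2 ∣ cf bs a b s (ev A B v (i + 1) (j + 1) 1) := by
        intro a b s _
        rw [hm, map_smul, smul_eq_mul]
        exact Dvd.intro _ rfl
      have htopm' : ∀ a b s, a + b + 1 = d →
          t ^ 2 ∣ cf bs a b s (ev A B v (i + 1 + 1) j 1) := by
        intro a b s _
        rw [hm', map_smul, smul_eq_mul]
        exact Dvd.intro _ rfl
      have e1 := diffA bs hb (t ^ 2) (t ^ (d - (a + 1 + b))) _ htopm a b s (by omega)
        (fun l i s' h => hS (a + 1) b s (by omega) l i s' h)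
      have epow : t ^ 2 * t ^ (d - (a + 1 + b)) = t ^ (d + 1 - (a + b)) := by
        rw [← pow_add]
        congr 1
        omega
      have e0 : A (ev A B v (i + 1) (j + 1) 1) = B (ev A B v (i + 1 + 1) j 1) := by
        rw [ev_A, ev_B _ _ hAB]
      rw [e0, epow] at e1
      refine (dvd_iff_dvd_of_dvd_sub e1).mp ?_
      cases b with
      | zero =>
        have e2 := diffB0 bs hAB hb (t ^ 2) (t ^ (d - (a + 1 + 0))) _ htopm' (a + 1) s
            (fun l i s' h => hS (a + 1) 0 s (by omega) l i s' h)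
        rw [epow] at e2
        exact e2
      | succ b =>
        have e2 := diffB bs hAB hb (t ^ 2) (t ^ (d - (a + 1 + (b + 1)))) _ htopm' (a + 1) b s (by omega)
            (fun l i s' h => hS (a + 1) (b + 1) s (by omega) l i s' h)
        rw [epow] at e2
        refine (dvd_iff_dvd_of_dvd_sub e2).mpr ?_
        have e3 := ih (i + 1) (by omega) (a + 1) b s (by omega) (by omega)
        have e4 : d + 1 - (a + 1 + b) = d + 1 - (a + (b + 1)) := by omega
        rwa [e4] at e3

theorem coord0 {A B : Module.End R M} {v : Fin 2 → M}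
    (hb : ∀ q : Idx d, bs q = ev A B v q.1.1 q.1.2.1 q.1.2.2) (t : R) (hd : 0 < d)
    (hS : ∀ a b s', a + b < d → ∀ l i s, l + i = d →
      t ^ (d - (a + b)) ∣ cf bs a b s' (ev A B v l i s)) (k : ℕ) :
    t ^ d ∣ cf bs 0 0 0 (((A - t • 1) ^ k) (v 0)) - (-t) ^ k := by
  induction k with
  | zero =>
    have h : v 0 = ev A B v 0 0 0 := by simp [ev]
    rw [pow_zero, pow_zero, Module.End.one_apply, h, cf_ev bs hb _ _ _ _ _ _ (by omega)]
    simp
  | succ k ih =>
    have e0 : ((A - t • 1) ^ (k + 1)) (v 0) =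
        A (((A - t • 1) ^ k) (v 0)) - t • (((A - t • 1) ^ k) (v 0)) := by
      rw [pow_succ']
      simp
    have e1 := diffA0 bs hb 1 (t ^ d) (((A - t • 1) ^ k) (v 0)) (fun _ _ _ _ => one_dvd _) 0 0
      (fun l i s' h => by simpa using hS 0 0 0 (by omega) l i s' h)
    rw [one_mul] at e1
    rw [e0, map_sub, map_smul, smul_eq_mul]
    have e2 : cf bs 0 0 0 (A (((A - t • 1) ^ k) (v 0))) - t * cf bs 0 0 0 (((A - t • 1) ^ k) (v 0))
        - (-t) ^ (k + 1) = cf bs 0 0 0 (A (((A - t • 1) ^ k) (v 0))) -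
          t * (cf bs 0 0 0 (((A - t • 1) ^ k) (v 0)) - (-t) ^ k) := by
      rw [pow_succ]
      ring
    rw [e2]
    exact dvd_sub e1 (Dvd.dvd.mul_left ih t)

/-- Core theorem: the three congruences modulo `t ^ 2` are incompatible with exact
commutation. -/
theorem core {A B : Module.End R M} (hAB : Commute A B) {v : Fin 2 → M}
    (hb : ∀ q : Idx d, bs q = ev A B v q.1.1 q.1.2.1 q.1.2.2) (t : R) (hd : 0 < d)
    (h1 : ∀ i j, i + j = d → ∃ m, ((A - t • 1) ^ i * B ^ j) (v 0) = t ^ 2 • m)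
    (h2 : ∀ i j, i + 1 + j = d → ∃ m, ev A B v (i + 1) j 1 = t ^ 2 • m)
    (h3 : ∃ m, ev A B v 0 d 1 = ((-1) ^ (d - 1) * t) • (((A - t • 1) ^ (d - 1)) (v 0)) + t ^ 2 • m) :
    t ^ (d + 2) ∣ t ^ (d + 1) := by
  obtain ⟨d', rfl⟩ : ∃ d', d = d' + 1 := ⟨d - 1, by omega⟩
  have hpow : ∀ k : ℕ, ∃ C : Module.End R M, A ^ k = (A - t • 1) ^ k + t • C := by
    intro k
    induction k with
    | zero => exact ⟨0, by simp⟩
    | succ k ih =>
      obtain ⟨C, hC⟩ := ih
      refine ⟨(A - t • 1) ^ k + A * C, ?_⟩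
      have e : A ^ (k + 1) = A * A ^ k := pow_succ' A k
      rw [e, hC, pow_succ' (A - t • 1) k, sub_mul, mul_add, smul_add]
      simp only [smul_mul_assoc, one_mul, mul_smul_comm]
      abel
  have h0 : ∀ l i s, l + i = d' + 1 → ∃ m, ev A B v l i s = t • m := by
    intro l i s hli
    have hs : s = 0 ∨ s = 1 := by
      fin_cases s
      · left; rfl
      · right; rfl
    rcases hs with rfl | rfl
    · obtain ⟨m, hm⟩ := h1 l i hli
      obtain ⟨C, hC⟩ := hpow l
      refine ⟨t • m + (C * B ^ i) (v 0), ?_⟩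
      unfold ev
      rw [hC, add_mul, LinearMap.add_apply, hm, smul_add, smul_smul, ← pow_two, smul_mul_assoc]
      rfl
    · cases l with
      | zero =>
        obtain ⟨m, hm⟩ := h3
        have hi : i = d' + 1 := by omega
        subst hi
        refine ⟨((-1) ^ (d' + 1 - 1) : R) • (((A - t • 1) ^ (d' + 1 - 1)) (v 0)) + t • m, ?_⟩
        rw [hm, smul_add, smul_smul, smul_smul, mul_comm t, ← pow_two]
      | succ l =>
        obtain ⟨m, hm⟩ := h2 l i hli
        refine ⟨t • m, ?_⟩
        rw [hm, smul_smul, ← pow_two]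
  have hS := stepA' bs hAB hb t h0
  -- weight of (A - t)^d v_0
  have hg : Wt bs t (d' + 1 + 1) (((A - t • 1) ^ (d' + 1)) (v 0)) := by
    intro a b s hab
    have e := stepB1 bs hAB hb t hS h1 (d' + 1) 0 (by omega) a b s hab (by omega)
    simpa using e
  -- weight of A B^(d-1) v_1
  have hh : Wt bs t (d' + 1 + 1) (ev A B v 1 d' 1) := by
    intro a b s hab
    by_cases hb' : b < d'
    · exact stepB2 bs hAB hb t hS h2 d' 0 (by omega) a b s hab hb'
    · obtain ⟨m, hm⟩ := h2 0 d' (by omega)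
      rw [zero_add] at hm
      rw [hm, map_smul, smul_eq_mul]
      have e : d' + 1 + 1 - (a + b) = 2 := by omega
      rw [e]
      exact Dvd.intro _ rfl
  have hBh := Wt_B bs hAB hb t hS _ _ hh 0 0 0 (by omega)
  obtain ⟨m, hm⟩ := h3
  have e1 : B (ev A B v 1 d' 1) = A (ev A B v 0 (d' + 1) 1) := by
    rw [ev_A, ev_B _ _ hAB]
  rw [e1, hm] at hBh
  simp only [Nat.add_sub_cancel, map_add, map_smul, smul_eq_mul, zero_add, Nat.sub_zero] at hBh
  have e2 : A (((A - t • 1) ^ d') (v 0)) = ((A - t • 1) ^ (d' + 1)) (v 0) +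
      t • (((A - t • 1) ^ d') (v 0)) := by
    rw [pow_succ' (A - t • 1) d']
    simp
  have e3 : t ^ (d' + 1 + 2) ∣ cf bs 0 0 0 (A (t ^ 2 • m)) := by
    have e := diffA0 bs hb (t ^ 2) (t ^ (d' + 1)) (t ^ 2 • m)
      (fun a b s _ => by rw [map_smul, smul_eq_mul]; exact Dvd.intro _ rfl) 0 0
      (fun l i s' h => by simpa using hS 0 0 0 (by omega) l i s' h)
    rw [← pow_add, add_comm 2] at e
    exact e
  rw [e2] at hBh
  simp only [map_add, map_smul, smul_eq_mul] at hBh e3
  have hg0 := hg 0 0 0 (by omega)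
  simp only [add_zero, Nat.sub_zero] at hg0
  have hc0 := coord0 bs hb t (by omega) hS d'
  obtain ⟨u1, hu1⟩ := hBh
  obtain ⟨u2, hu2⟩ := e3
  obtain ⟨u3, hu3⟩ := hg0
  obtain ⟨u4, hu4⟩ := hc0
  have hu4' : cf bs 0 0 0 (((A - t • 1) ^ d') (v 0)) = (-t) ^ d' + t ^ (d' + 1) * u4 := by
    rw [← hu4]; ring
  rw [hu2, hu3, hu4'] at hu1
  have hsgn : ((-1 : R) ^ d') * ((-t) ^ d') = t ^ d' := by
    rw [← mul_pow]; congr 1; ring
  refine ⟨u1 - u2 - (-1) ^ d' * u3 - (-1) ^ d' * u4, ?_⟩
  linear_combination hu1 - t ^ 2 * hsgn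

end Core

end Pool.Agent.Helper557.PadicCore
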