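import Mathlib
import Pool.Agent.Helper557.PadicCore

set_option autoImplicit false

namespace Pool.Agent.Helper557.PadicMat

open Pool.Agent.Helper557.PadicCore Matrix

section Unit

variable {R : Type} [CommRing R] [IsLocalRing R] {ι : Type} [Fintype ι] [DecidableEq ι]

theorem isUnit_one_add (t : R) (ht : t ∈ IsLocalRing.maximalIdeal R) (C : Matrix ι ι R) :
    IsUnit (1 + t • C) := by
  rw [Matrix.isUnit_iff_isUnit_det]
  apply isUnit_of_map_unit (IsLocalRing.residue R)
  have h0 : IsLocalRing.residue R t = 0 := by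
    rwa [IsLocalRing.residue_eq_zero_iff]
  have h1 : (IsLocalRing.residue R).mapMatrix (1 + t • C) = 1 := by
    rw [map_add, map_one]
    ext i j
    simp [h0]
  rw [RingHom.map_det, h1, Matrix.det_one]
  exact isUnit_one

theorem isUnit_one_add_of_pow (t : R) (ht : t ∈ IsLocalRing.maximalIdeal R) (A : Matrix ι ι R)
    (k : ℕ) (C : Matrix ι ι R) (h : A ^ k = t • C) : IsUnit (1 + A) := by
  have h1 : (1 + A) * ∑ i ∈ Finset.range k, (-A) ^ i = 1 + t • (-((-1) ^ k * C)) := by
    have e := mul_neg_geom_sum (-A) k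
    rw [sub_neg_eq_add] at e
    rw [e, neg_pow, h, smul_neg, mul_smul_comm, ← sub_eq_add_neg]
  have h2 := isUnit_one_add t ht (-((-1) ^ k * C))
  rw [← h1, Matrix.isUnit_iff_isUnit_det, Matrix.det_mul] at h2
  rw [Matrix.isUnit_iff_isUnit_det]
  exact isUnit_of_mul_isUnit_left h2

end Unit

section Cong

variable {R M : Type} [CommRing R] [AddCommGroup M] [Module R M]

/-- congruence of endomorphisms modulo `x` -/
def Cong (x : R) (f g : Module.End R M) : Prop := ∃ C, f = g + x • C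

theorem Cong.mul {x : R} {f g f' g' : Module.End R M} (h : Cong x f g) (h' : Cong x f' g') :
    Cong x (f * f') (g * g') := by
  obtain ⟨C, rfl⟩ := h
  obtain ⟨C', rfl⟩ := h'
  refine ⟨g * C' + C * g' + C * (x • C'), ?_⟩
  rw [add_mul, mul_add, mul_add, mul_smul_comm, smul_mul_assoc, smul_add, smul_add,
    smul_mul_assoc]
  abel

theorem Cong.pow {x : R} {f g : Module.End R M} (h : Cong x f g) (k : ℕ) :
    Cong x (f ^ k) (g ^ k) := by
  induction k with
  | zero => exact ⟨0, by simp⟩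
  | succ k ih => rw [pow_succ, pow_succ]; exact ih.mul h

theorem Cong.sub_smul {x : R} {f g : Module.End R M} (h : Cong x f g) (t : R) :
    Cong x (f - t • 1) (g - t • 1) := by
  obtain ⟨C, rfl⟩ := h
  exact ⟨C, by abel⟩

end Cong

section Model

variable {R : Type} [CommRing R] (t : R) (d : ℕ)

/-- standard vectors -/
def eb (a b : ℕ) (s : Fin 2) : Idx d → R :=
  if h : a + b < d then Pi.single ⟨(a, b, s), h⟩ 1 else 0

theorem eb_of_not {a b : ℕ} (h : ¬ a + b < d) (s : Fin 2) : (eb d a b s : Idx d → R) = 0 := by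
  unfold eb
  rw [dif_neg h]

/-- the special vector -/
def hv : Idx d → R := ∑ q ∈ Finset.range d, ((-1) ^ q * t ^ (d - q)) • eb d q 0 0

def imgA (j : Idx d) : Idx d → R :=
  eb d (j.1.1 + 1) j.1.2.1 j.1.2.2 + (if j.1.2.2 = 0 then t • eb d j.1.1 j.1.2.1 0 else 0)

def imgB (j : Idx d) : Idx d → R :=
  eb d j.1.1 (j.1.2.1 + 1) j.1.2.2 +
    (if j.1.2.2 = 1 ∧ j.1.1 = 0 ∧ j.1.2.1 + 1 = d then hv t d else 0)

def Am : Matrix (Idx d) (Idx d) R := Matrix.of fun i j => imgA t d j i

def Bm : Matrix (Idx d) (Idx d) R := Matrix.of fun i j => imgB t d j i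

/-- the linear maps -/
def Al : Module.End R (Idx d → R) := Matrix.toLinAlgEquiv' (Am t d)

def Bl : Module.End R (Idx d → R) := Matrix.toLinAlgEquiv' (Bm t d)

theorem Al_eb (a b : ℕ) (s : Fin 2) :
    Al t d (eb d a b s) = eb d (a + 1) b s + (if s = 0 then t • eb d a b 0 else 0) := by
  by_cases h : a + b < d
  · have e : (eb d a b s : Idx d → R) = Pi.single ⟨(a, b, s), h⟩ 1 := by
      unfold eb
      rw [dif_pos h]
    rw [e]
    unfold Al
    rw [Matrix.toLinAlgEquiv'_apply, Matrix.mulVec_single_one]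
    rfl
  · rw [eb_of_not d h, eb_of_not d h, eb_of_not d (by omega)]
    simp

theorem Bl_eb (a b : ℕ) (s : Fin 2) :
    Bl t d (eb d a b s) = eb d a (b + 1) s + (if s = 1 ∧ a = 0 ∧ b + 1 = d then hv t d else 0) := by
  by_cases h : a + b < d
  · have e : (eb d a b s : Idx d → R) = Pi.single ⟨(a, b, s), h⟩ 1 := by
      unfold eb
      rw [dif_pos h]
    rw [e]
    unfold Bl
    rw [Matrix.toLinAlgEquiv'_apply, Matrix.mulVec_single_one]
    rfl
  · rw [eb_of_not d h, eb_of_not d (by omega), if_neg (by omega)]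
    simp

/-- extensionality on standard vectors -/
theorem end_ext {f g : Module.End R (Idx d → R)}
    (h : ∀ a b s, a + b < d → f (eb d a b s) = g (eb d a b s)) : f = g := by
  apply (Pi.basisFun R (Idx d)).ext
  intro q
  have h1 := h q.1.1 q.1.2.1 q.1.2.2 q.2
  unfold eb at h1
  rw [dif_pos q.2] at h1
  rw [Pi.basisFun_apply]
  exact h1

theorem Al_hv (hd : 0 < d) : Al t d (hv t d) = t ^ (d + 1) • eb d 0 0 0 := by
  unfold hv
  rw [map_sum]
  have h1 : ∀ q ∈ Finset.range d, Al t d (((-1) ^ q * t ^ (d - q)) • eb d q 0 0) =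
      ((-1) ^ q * t ^ (d + 1 - q)) • eb d q 0 0 -
        ((-1) ^ (q + 1) * t ^ (d + 1 - (q + 1))) • eb d (q + 1) 0 0 := by
    intro q hq
    rw [Finset.mem_range] at hq
    rw [map_smul, Al_eb, if_pos rfl, smul_add, smul_smul]
    have e1 : d + 1 - q = (d - q) + 1 := by omega
    have e2 : d + 1 - (q + 1) = d - q := by omega
    rw [e1, e2, add_comm, sub_eq_add_neg, ← neg_smul]
    congr 2
    · ring
    · ring
  rw [Finset.sum_congr rfl h1, Finset.sum_range_sub' (fun q => ((-1 : R) ^ q * t ^ (d + 1 - q)) • (eb d q 0 0 : Idx d → R)) d]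
  rw [eb_of_not d (a := d) (by omega)]
  simp

theorem comm_eq (hd : 0 < d) : ∃ Z : Module.End R (Idx d → R),
    Al t d * Bl t d - Bl t d * Al t d = t ^ (d + 1) • Z := by
  classical
  refine ⟨(Pi.basisFun R (Idx d)).constr R
    (fun q => if q.1.2.2 = 1 ∧ q.1.1 = 0 ∧ q.1.2.1 + 1 = d then eb d 0 0 0 else 0), ?_⟩
  apply end_ext
  intro a b s hab
  have e : (eb d a b s : Idx d → R) = (Pi.basisFun R (Idx d)) ⟨(a, b, s), hab⟩ := by
    unfold eb
    rw [dif_pos hab, Pi.basisFun_apply]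
  have e2 : (t ^ (d + 1) • (Pi.basisFun R (Idx d)).constr R
    (fun q => if q.1.2.2 = 1 ∧ q.1.1 = 0 ∧ q.1.2.1 + 1 = d then (eb d 0 0 0 : Idx d → R) else 0))
      (eb d a b s) = if s = 1 ∧ a = 0 ∧ b + 1 = d then t ^ (d + 1) • eb d 0 0 0 else 0 := by
    rw [e, LinearMap.smul_apply, Module.Basis.constr_basis]
    simp only
    split_ifs <;> simp
  rw [e2, LinearMap.sub_apply]
  change Al t d (Bl t d (eb d a b s)) - Bl t d (Al t d (eb d a b s)) = _
  rw [Bl_eb, Al_eb, map_add, map_add, Al_eb, Bl_eb]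
  by_cases hs : s = 0
  · subst hs
    simp [Bl_eb]
  · have hs1 : s = 1 := by omega
    subst hs1
    by_cases hc : a = 0 ∧ b + 1 = d
    · simp [hc, Al_hv t d hd]
    · have hc' : ¬ (a = 0 ∧ b + 1 = d) := hc
      simp [hc']

theorem AlBl_pow0 (a b : ℕ) : ((Al t d - t • 1) ^ a * Bl t d ^ b) (eb d 0 0 0) = eb d a b 0 := by
  have hB : ∀ b, (Bl t d ^ b) (eb d 0 0 0) = eb d 0 b 0 := by
    intro b
    induction b with
    | zero => simp
    | succ b ih =>
      rw [pow_succ', Module.End.mul_apply, ih, Bl_eb]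
      simp
  rw [Module.End.mul_apply, hB]
  induction a with
  | zero => simp
  | succ a ih =>
    rw [pow_succ', Module.End.mul_apply, ih, LinearMap.sub_apply, Al_eb]
    simp

theorem Bl_pow1 (b : ℕ) (hb : b < d) : (Bl t d ^ b) (eb d 0 0 1) = eb d 0 b 1 := by
  induction b with
  | zero => simp
  | succ b ih =>
    rw [pow_succ', Module.End.mul_apply, ih (by omega), Bl_eb, if_neg (by omega), add_zero]

theorem Bl_powd (hd : 0 < d) : (Bl t d ^ d) (eb d 0 0 1) = hv t d := by
  obtain ⟨d', rfl⟩ : ∃ d', d = d' + 1 := ⟨d - 1, by omega⟩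
  rw [pow_succ', Module.End.mul_apply, Bl_pow1 t _ d' (by omega), Bl_eb, if_pos ⟨rfl, rfl, rfl⟩,
    eb_of_not _ (by omega), zero_add]

theorem AlBl_pow1 (a b : ℕ) (hb : b < d) :
    (Al t d ^ a * Bl t d ^ b) (eb d 0 0 1) = eb d a b 1 := by
  rw [Module.End.mul_apply, Bl_pow1 t d b hb]
  induction a with
  | zero => simp
  | succ a ih =>
    rw [pow_succ', Module.End.mul_apply, ih, Al_eb, if_neg (by decide), add_zero]

theorem hv_eq (hd : 0 < d) : ∃ m : Idx d → R,
    hv t d = ((-1) ^ (d - 1) * t) • eb d (d - 1) 0 0 + t ^ 2 • m := by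
  obtain ⟨d', rfl⟩ : ∃ d', d = d' + 1 := ⟨d - 1, by omega⟩
  unfold hv
  rw [Finset.sum_range_succ]
  refine ⟨∑ q ∈ Finset.range d', ((-1) ^ q * t ^ (d' - 1 - q)) • eb (d' + 1) q 0 0, ?_⟩
  rw [Finset.smul_sum, add_comm (((-1) ^ (d' + 1 - 1) * t) • eb (d' + 1) (d' + 1 - 1) 0 0)]
  congr 1
  · refine Finset.sum_congr rfl ?_
    intro q hq
    rw [Finset.mem_range] at hq
    rw [smul_smul]
    congr 1
    have e : d' + 1 - q = (d' - 1 - q) + 2 := by omega
    rw [e]
    ring
  · simp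

end Model

section Main

variable {R : Type} [CommRing R] [IsLocalRing R] (t : R) (d : ℕ)

/-- powers of the model maps on standard vectors, modulo `t` -/
theorem Al_powd : ∃ C : Module.End R (Idx d → R), Al t d ^ d = t • C := by
  have h : ∀ k a b s, ∃ m, (Al t d ^ k) (eb d a b s) = eb d (a + k) b s + t • m := by
    intro k a b s
    induction k with
    | zero => exact ⟨0, by simp⟩
    | succ k ih =>
      obtain ⟨m, hm⟩ := ih
      refine ⟨(if s = 0 then eb d (a + k) b 0 else 0) + Al t d m, ?_⟩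
      rw [pow_succ', Module.End.mul_apply, hm, map_add, map_smul, Al_eb, smul_add]
      split_ifs <;> simp [add_assoc]
  choose m hm using h
  refine ⟨(Pi.basisFun R (Idx d)).constr R (fun q => m d q.1.1 q.1.2.1 q.1.2.2), ?_⟩
  apply end_ext
  intro a b s hab
  have e : (eb d a b s : Idx d → R) = (Pi.basisFun R (Idx d)) ⟨(a, b, s), hab⟩ := by
    unfold eb
    rw [dif_pos hab, Pi.basisFun_apply]
  rw [hm, eb_of_not d (by omega), zero_add, e, LinearMap.smul_apply, Module.Basis.constr_basis]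

theorem Bl_powd' : ∃ C : Module.End R (Idx d → R), Bl t d ^ d = t • C := by
  have hh : ∃ m0, hv t d = t • m0 := by
    refine ⟨∑ q ∈ Finset.range d, ((-1) ^ q * t ^ (d - q - 1)) • eb d q 0 0, ?_⟩
    unfold hv
    rw [Finset.smul_sum]
    refine Finset.sum_congr rfl ?_
    intro q hq
    rw [Finset.mem_range] at hq
    rw [smul_smul]
    congr 1
    have e : d - q = (d - q - 1) + 1 := by omega
    rw [e, pow_succ]
    simp only [Nat.add_sub_cancel]
    ring
  obtain ⟨m0, hm0⟩ := hh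
  have h : ∀ k a b s, ∃ m, (Bl t d ^ k) (eb d a b s) = eb d a (b + k) s + t • m := by
    intro k a b s
    induction k with
    | zero => exact ⟨0, by simp⟩
    | succ k ih =>
      obtain ⟨m, hm⟩ := ih
      refine ⟨(if s = 1 ∧ a = 0 ∧ b + k + 1 = d then m0 else 0) + Bl t d m, ?_⟩
      rw [pow_succ', Module.End.mul_apply, hm, map_add, map_smul, Bl_eb, smul_add, hm0]
      split_ifs <;> simp [add_assoc]
  choose m hm using h
  refine ⟨(Pi.basisFun R (Idx d)).constr R (fun q => m d q.1.1 q.1.2.1 q.1.2.2), ?_⟩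
  apply end_ext
  intro a b s hab
  have e : (eb d a b s : Idx d → R) = (Pi.basisFun R (Idx d)) ⟨(a, b, s), hab⟩ := by
    unfold eb
    rw [dif_pos hab, Pi.basisFun_apply]
  rw [hm, eb_of_not d (by omega), zero_add, e, LinearMap.smul_apply, Module.Basis.constr_basis]

theorem isUnit_one_add_end (ht : t ∈ IsLocalRing.maximalIdeal R)
    (C : Module.End R (Idx d → R)) : IsUnit (1 + t • C) := by
  have h := isUnit_one_add t ht (LinearMap.toMatrixAlgEquiv' C)
  have h2 := h.map (Matrix.toLinAlgEquiv' (R := R) (n := Idx d))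
  rw [map_add, map_one, map_smul, Matrix.toLinAlgEquiv'_toMatrixAlgEquiv'] at h2
  exact h2

/-- No exactly commuting pair is congruent to the model pair modulo `t ^ 2`. -/
theorem no_comm (hd : 0 < d) (ht : t ∈ IsLocalRing.maximalIdeal R)
    (A B : Module.End R (Idx d → R)) (hAB : Commute A B)
    (hA : Cong (t ^ 2) A (Al t d)) (hB : Cong (t ^ 2) B (Bl t d)) :
    t ^ (d + 2) ∣ t ^ (d + 1) := by
  classical
  let v : Fin 2 → (Idx d → R) := fun s => eb d 0 0 s
  have hw : ∀ a b, Cong (t ^ 2) (A ^ a * B ^ b) (Al t d ^ a * Bl t d ^ b) :=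
    fun a b => (hA.pow a).mul (hB.pow b)
  have hw' : ∀ a b, Cong (t ^ 2) ((A - t • 1) ^ a * B ^ b) ((Al t d - t • 1) ^ a * Bl t d ^ b) :=
    fun a b => ((hA.sub_smul t).pow a).mul (hB.pow b)
  have hpow : ∀ k : ℕ, ∃ C : Module.End R (Idx d → R),
      Al t d ^ k = (Al t d - t • 1) ^ k + t • C := by
    intro k
    induction k with
    | zero => exact ⟨0, by simp⟩
    | succ k ih =>
      obtain ⟨C, hC⟩ := ih
      refine ⟨(Al t d - t • 1) ^ k + Al t d * C, ?_⟩
      have e : Al t d ^ (k + 1) = Al t d * Al t d ^ k := pow_succ' _ k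
      rw [e, hC, pow_succ' (Al t d - t • 1) k, sub_mul, mul_add, smul_add]
      simp only [smul_mul_assoc, one_mul, mul_smul_comm]
      abel
  -- the candidate basis vectors are congruent to the standard ones modulo `t`
  have hev : ∀ q : Idx d, ∃ m, ev A B v q.1.1 q.1.2.1 q.1.2.2 =
      (Pi.basisFun R (Idx d)) q + t • m := by
    intro q
    obtain ⟨⟨a, b, s⟩, hq⟩ := q
    have e : (eb d a b s : Idx d → R) = (Pi.basisFun R (Idx d)) ⟨(a, b, s), hq⟩ := by
      unfold eb
      rw [dif_pos hq, Pi.basisFun_apply]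
    rw [← e]
    simp only at hq ⊢
    obtain ⟨C, hC⟩ := hw a b
    have hs : s = 0 ∨ s = 1 := by
      fin_cases s
      · left; rfl
      · right; rfl
    rcases hs with rfl | rfl
    · obtain ⟨C', hC'⟩ := hpow a
      refine ⟨t • C (v 0) + (C' * Bl t d ^ b) (v 0), ?_⟩
      unfold ev
      rw [hC, LinearMap.add_apply, hC', add_mul, LinearMap.add_apply, AlBl_pow0, smul_mul_assoc,
        LinearMap.smul_apply, LinearMap.smul_apply, smul_add, smul_smul, ← pow_two, add_assoc,
        add_comm (t ^ 2 • C (v 0))]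
    · refine ⟨t • C (v 1), ?_⟩
      unfold ev
      rw [hC, LinearMap.add_apply, AlBl_pow1 t d a b (by omega), LinearMap.smul_apply, smul_smul,
        ← pow_two]
  choose mm hmm using hev
  let T : Module.End R (Idx d → R) := 1 + t • (Pi.basisFun R (Idx d)).constr R mm
  have hT : IsUnit T := isUnit_one_add_end t d ht _
  have hTq : ∀ q, T ((Pi.basisFun R (Idx d)) q) = ev A B v q.1.1 q.1.2.1 q.1.2.2 := by
    intro q
    rw [hmm q]
    change (1 + t • (Pi.basisFun R (Idx d)).constr R mm) _ = _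
    rw [LinearMap.add_apply, LinearMap.smul_apply, Module.Basis.constr_basis, Module.End.one_apply]
  let Te : (Idx d → R) ≃ₗ[R] (Idx d → R) :=
    LinearEquiv.ofBijective T ((Module.End.isUnit_iff T).mp hT)
  let bs : Module.Basis (Idx d) R (Idx d → R) := (Pi.basisFun R (Idx d)).map Te
  have hb : ∀ q : Idx d, bs q = ev A B v q.1.1 q.1.2.1 q.1.2.2 := by
    intro q
    rw [← hTq q]
    rfl
  refine core bs hAB hb t hd ?_ ?_ ?_
  · intro i j hij
    obtain ⟨C, hC⟩ := hw' i j
    refine ⟨C (v 0), ?_⟩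
    rw [hC, LinearMap.add_apply, AlBl_pow0, eb_of_not d (by omega), zero_add]
    rfl
  · intro i j hij
    obtain ⟨C, hC⟩ := hw (i + 1) j
    refine ⟨C (v 1), ?_⟩
    unfold ev
    rw [hC, LinearMap.add_apply, AlBl_pow1 t d _ j (by omega), eb_of_not d (by omega), zero_add]
    rfl
  · obtain ⟨C, hC⟩ := hw 0 d
    obtain ⟨C', hC'⟩ := hw' (d - 1) 0
    obtain ⟨m, hm⟩ := hv_eq t d hd
    refine ⟨m + C (v 1) - ((-1) ^ (d - 1) * t) • C' (v 0), ?_⟩
    unfold ev
    have e1 : (Al t d ^ 0 * Bl t d ^ d) (v 1) = hv t d := by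
      rw [pow_zero, one_mul]
      exact Bl_powd t d hd
    have e2 : ((A - t • 1) ^ (d - 1)) (v 0) = eb d (d - 1) 0 0 + t ^ 2 • C' (v 0) := by
      have e3 := AlBl_pow0 t d (d - 1) 0
      rw [pow_zero, mul_one] at e3 hC'
      rw [hC', LinearMap.add_apply, pow_zero, mul_one]
      rw [e3]
      rfl
    rw [hC, LinearMap.add_apply, e1, hm, e2]
    rw [LinearMap.smul_apply]
    module

end Main

end Pool.Agent.Helper557.PadicMat
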