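import Mathlib
import Pool.Agent.Helper557.PadicMat

set_option autoImplicit false

namespace Pool.Agent.Helper557.PadicFinal

open Pool.Agent.Helper557.PadicCore Pool.Agent.Helper557.PadicMat Matrix

/-- For every prime `p` and every `m` there are invertible matrices over the `p`-adic integers
commuting modulo `p ^ m` which are not congruent modulo `p ^ 2` to a commuting pair. -/
theorem main (p : ℕ) [Fact (Nat.Prime p)] (m : ℕ) :
    ∃ (n : ℕ) (A B : Matrix (Fin n) (Fin n) ℤ_[p]), IsUnit A ∧ IsUnit B ∧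
      (∀ i j : Fin n, (p : ℤ_[p]) ^ m ∣ (A * B - B * A) i j) ∧
      ∀ A' B' : Matrix (Fin n) (Fin n) ℤ_[p], A' * B' = B' * A' →
        (∀ i j : Fin n, (p : ℤ_[p]) ^ 2 ∣ (A - A') i j) →
        (∀ i j : Fin n, (p : ℤ_[p]) ^ 2 ∣ (B - B') i j) → False := by
  classical
  let t : ℤ_[p] := (p : ℤ_[p])
  have ht : t ∈ IsLocalRing.maximalIdeal ℤ_[p] := by
    rw [IsLocalRing.mem_maximalIdeal]
    exact PadicInt.p_nonunit
  have ht0 : t ≠ 0 := by
    change (p : ℤ_[p]) ≠ 0
    have := (Fact.out : Nat.Prime p).ne_zero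
    exact_mod_cast this
  let d := m + 1
  have hd : 0 < d := Nat.succ_pos m
  have hnd : ¬ (t ^ (d + 2) ∣ t ^ (d + 1)) := by
    intro h
    have h2 := (pow_dvd_pow_iff ht0 (by rw [IsLocalRing.mem_maximalIdeal] at ht; exact ht)).mp h
    omega
  let e : Idx d ≃ Fin (Fintype.card (Idx d)) := Fintype.equivFin (Idx d)
  let φ : Matrix (Idx d) (Idx d) ℤ_[p] ≃ₐ[ℤ_[p]]
      Matrix (Fin (Fintype.card (Idx d))) (Fin (Fintype.card (Idx d))) ℤ_[p] :=
    Matrix.reindexAlgEquiv ℤ_[p] ℤ_[p] e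
  let ψ : Matrix (Idx d) (Idx d) ℤ_[p] ≃ₐ[ℤ_[p]] Module.End ℤ_[p] (Idx d → ℤ_[p]) :=
    Matrix.toLinAlgEquiv'
  have hAu : IsUnit (1 + Am t d) := by
    obtain ⟨C, hC⟩ := Al_powd t d
    refine isUnit_one_add_of_pow t ht _ d (ψ.symm C) ?_
    apply ψ.injective
    rw [map_pow, map_smul, AlgEquiv.apply_symm_apply]
    exact hC
  have hBu : IsUnit (1 + Bm t d) := by
    obtain ⟨C, hC⟩ := Bl_powd' t d
    refine isUnit_one_add_of_pow t ht _ d (ψ.symm C) ?_
    apply ψ.injective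
    rw [map_pow, map_smul, AlgEquiv.apply_symm_apply]
    exact hC
  refine ⟨_, φ (1 + Am t d), φ (1 + Bm t d), hAu.map φ, hBu.map φ, ?_, ?_⟩
  · intro i j
    obtain ⟨Z, hZ⟩ := comm_eq t d hd
    have h1 : Am t d * Bm t d - Bm t d * Am t d = t ^ (d + 1) • ψ.symm Z := by
      apply ψ.injective
      rw [map_sub, map_mul, map_mul, map_smul, AlgEquiv.apply_symm_apply]
      exact hZ
    have h2 : (1 + Am t d) * (1 + Bm t d) - (1 + Bm t d) * (1 + Am t d) =
        Am t d * Bm t d - Bm t d * Am t d := by noncomm_ring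
    rw [← map_mul, ← map_mul, ← map_sub, h2, h1, map_smul, Matrix.smul_apply, smul_eq_mul]
    exact Dvd.dvd.mul_right (pow_dvd_pow _ (by omega)) _
  · intro A' B' hc hA hB
    apply hnd
    have key : ∀ (X : Matrix (Idx d) (Idx d) ℤ_[p])
        (X' : Matrix (Fin (Fintype.card (Idx d))) (Fin (Fintype.card (Idx d))) ℤ_[p]),
        (∀ i j, t ^ 2 ∣ (φ (1 + X) - X') i j) →
        Cong (t ^ 2) (ψ (φ.symm X' - 1)) (ψ X) := by
      intro X X' h
      choose C hC using h
      refine ⟨ψ (φ.symm (-(Matrix.of C))), ?_⟩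
      have h1 : X' - φ (1 + X) = t ^ 2 • (-(Matrix.of C)) := by
        ext i j
        have := hC i j
        rw [Matrix.sub_apply] at this
        rw [Matrix.sub_apply, Matrix.smul_apply, Matrix.neg_apply, Matrix.of_apply, smul_eq_mul,
          mul_neg, ← this]
        ring
      have h2 : φ.symm X' - (1 + X) = t ^ 2 • φ.symm (-(Matrix.of C)) := by
        rw [← map_smul, ← h1, map_sub, AlgEquiv.symm_apply_apply]
      have h3 : φ.symm X' - 1 = X + t ^ 2 • φ.symm (-(Matrix.of C)) := by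
        rw [← h2]; abel
      rw [h3, map_add, map_smul]
    refine no_comm t d hd ht (ψ (φ.symm A' - 1)) (ψ (φ.symm B' - 1)) ?_ (key _ _ hA) (key _ _ hB)
    have h1 : Commute A' B' := hc
    have h2 : Commute (φ.symm A') (φ.symm B') := h1.map φ.symm
    have h3 : Commute (φ.symm A' - 1) (φ.symm B' - 1) :=
      (h2.sub_left (Commute.one_left _)).sub_right (Commute.one_right _)
    exact h3.map ψ

end Pool.Agent.Helper557.PadicFinal
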